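import Pool.Agent.H54.AF.TreeF

/-!
# [H54 LK] The commuting condition (COM) for an edge of a tree and the girth of the edge. Definitions

`T` is one side of the edge `b c`: `b ∈ T`, `c ∉ T`, all other labels between `T` and its complement are `2`.
(COM): if `x` in the Artin group of the side of `c` commutes with `y` in the Artin group of the side of `b` then `x` is in the Artin group of the side of `c` without `c` or
`y` is in the Artin group of the side of `b` without `b`.
-/

set_option autoImplicit false

namespace Pool.Agent.H54.LK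

open Pool.H8.CDW Pool.Agent.H52.PAG Pool.Agent.H75.INF Pool.Agent.H54.TF

variable {B : Type}

/-- `T` is the side of `b` of the edge `b c` -/
structure Brg (M : CoxeterMatrix B) (b c : B) (T : Set B) : Prop where
  left : b ∈ T
  right : c ∉ T
  edge : 3 ≤ M b c
  two : ∀ i ∈ T, ∀ j, j ∉ T → ¬ (i = b ∧ j = c) → M i j = 2

/-- (COM) for the edge `b c` -/
def Com (M : CoxeterMatrix B) (b c : B) (T : Set B) : Prop :=
  ∀ x ∈ ap M Tᶜ, ∀ y ∈ ap M T, x * y = y * x → x ∈ ap M (Tᶜ \ {c}) ∨ y ∈ ap M (T \ {b})

/-- simply laced diagrams without triangles -/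
def SL (M : CoxeterMatrix B) : Prop := (∀ i j, i ≠ j → M i j = 2 ∨ M i j = 3) ∧ ∀ i j k, ¬ (M i j = 3 ∧ M j k = 3 ∧ M i k = 3)

/-- (COM) for the edges of a leaf `c` -/
def ComLeaf : Prop := ∀ (B : Type) [Finite B] (M : CoxeterMatrix B), SL M → ∀ b c, Brg M b c ({c}ᶜ : Set B) →
  Finite (resM M ({c}ᶜ : Set B)).Group → Com M b c ({c}ᶜ : Set B)

/-- (COM) for an edge both of whose sides are of finite type, also with the other end -/
def ComInner : Prop := ∀ (B : Type) [Finite B] (M : CoxeterMatrix B), SL M → ∀ (b c : B) (T : Set B), Brg M b c T →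
  Finite (resM M (insert c T)).Group → Finite (resM M (insert b Tᶜ)).Group → Com M b c T

theorem Brg.symm {M : CoxeterMatrix B} {b c : B} {T : Set B} (h : Brg M b c T) : Brg M c b Tᶜ where
  left := h.right
  right := fun h1 => h1 h.left
  edge := by
    rw [M.symmetric]
    exact h.edge
  two := by
    intro i hi j hj hij
    rw [M.symmetric]
    exact h.two j (not_not.1 hj) i hi fun h1 => hij ⟨h1.2, h1.1⟩

end Pool.Agent.H54.LK
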