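import Pool.Agent.H54.LK.Defs
import Pool.Agent.H54.TF.Cf
import Pool.Agent.H54.TF.Rng
import Pool.Agent.H54.AF.Cmm

/-!
# [H54 LK RED] The girth of an edge from (COM)
-/

set_option autoImplicit false

namespace Pool.Agent.H54.LK

open CoxeterSystem Pool.H8.CDW Pool.Agent.H52.PAG Pool.Agent.H75.INF Pool.Agent.H54.TF Pool.Agent.H54.AF

section

variable {B W : Type*} [Group W] {M : CoxeterMatrix B} (cs : CoxeterSystem M W)

theorem isL_compl {T : Set B} {w : W} (hw : w ∈ par cs Tᶜ) : IsL cs T w := by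
  intro z hz h
  obtain ⟨ω, hω, e⟩ := cs.exists_isReduced (cs.simple z * w)
  have h1 := cs.isLeftDescent_iff.1 h
  have e2 : cs.wordProd (z :: ω) = w := by
    rw [wordProd_cons, ← e, simple_mul_simple_cancel_left]
  have h3 : cs.IsReduced (z :: ω) := by
    unfold CoxeterSystem.IsReduced
    rw [e2, List.length_cons, ← hω.eq, ← e]
    omega
  have h4 := letters_of_reduced cs (simple_inj cs) h3 (J := Tᶜ) (by rw [e2]; exact hw) z List.mem_cons_self
  exact h4 hz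

theorem isMin_compl {T : Set B} {w : W} (hw : w ∈ par cs Tᶜ) : IsMin cs T w := by
  have h := (isL_iff cs T w⁻¹).1 (isL_compl cs (inv_mem hw))
  rwa [inv_inv] at h

end

variable {B : Type} {M : CoxeterMatrix B} {b c : B} {T : Set B}

theorem exists_lift {K : Set B} {w : M.Group} (hw : w ∈ pw M K) : ∃ p ∈ ap M K, toCox M p = w := by
  refine Subgroup.closure_induction (p := fun w _ => ∃ p ∈ ap M K, toCox M p = w) ?_ ?_ ?_ ?_ hw
  · rintro _ ⟨k, hk, rfl⟩
    exact ⟨gen M k, gen_mem_ap hk, toCox_gen' k⟩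
  · exact ⟨1, one_mem _, map_one _⟩
  · rintro _ _ _ _ ⟨p, hp, rfl⟩ ⟨q, hq, rfl⟩
    exact ⟨p * q, mul_mem hp hq, map_mul _ _ _⟩
  · rintro _ _ ⟨p, hp, rfl⟩
    exact ⟨p⁻¹, inv_mem hp, map_inv _ _⟩

/-- the cocycle on the other side -/
theorem cy_other {x y : Art M} (h : Brg M b c T) (hM : ∀ i j, M i j ≠ 0) (hx : x ∈ ap M Tᶜ) (hy : y ∈ ap M T) :
    toCox M x ∈ pw M (Tᶜ \ {c}) ∨ cy M T (toCox M x) y ∈ ap M (T \ {b}) := by
  have hw : toCox M x ∈ pw M Tᶜ := toCox_mem hx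
  have h1 := cy_range (M := M) T T (u := 1) (w₁ := toCox M x) (t := 1) (one_mem _) (one_mem _)
    (isL_compl M.toCoxeterSystem hw) (isMin_compl M.toCoxeterSystem hw) hy
  rw [one_mul, mul_one] at h1
  by_cases hb : ∃ l ∈ T, M.toCoxeterSystem.simple b * toCox M x = toCox M x * M.toCoxeterSystem.simple l
  · left
    obtain ⟨l, -, hl⟩ := hb
    have hw' : toCox M x ∈ par M.toCoxeterSystem ({b}ᶜ : Set B) := by
      refine par_mono _ ?_ hw
      rintro j hj rfl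
      exact hj h.left
    have h2 := (cf M.toCoxeterSystem hM hw' hl).2
    have h3 : toCox M x ∈ par M.toCoxeterSystem (Tᶜ ∩ {i | i ≠ b ∧ M b i = 2}) := by
      rw [← par_inter M.toCoxeterSystem (simple_inj M.toCoxeterSystem)]
      exact ⟨hw, h2⟩
    refine par_mono _ ?_ h3
    rintro j ⟨hj, -, hj2⟩
    refine ⟨hj, fun e => ?_⟩
    have h4 := h.edge
    rw [← (show j = c from e), hj2] at h4
    omega
  · right
    refine ap_mono ?_ h1
    rintro k ⟨hk, hl⟩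
    refine ⟨hk, fun e => hb ?_⟩
    rw [← (show k = b from e)]
    exact hl

/-- the first step -/
theorem core {x y y' x' : Art M} (h : Brg M b c T) (hM : ∀ i j, M i j ≠ 0) (hx : x ∈ ap M Tᶜ) (hy : y ∈ ap M T)
    (hy' : y' ∈ ap M T) (hx' : x' ∈ ap M Tᶜ) (he : x * y = y' * x') : y = y' ∨ y ∈ ap M (T \ {b}) := by
  have hc := cy_spec M T
  have one : ∀ {x : Art M}, x ∈ ap M Tᶜ → ∀ u ∈ pw M T, cy M T u x = 1 := by
    intro x hx u hu
    have h1 := cy_range (M := M) T Tᶜ (u := u) (w₁ := 1) (t := 1) hu (one_mem _)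
      (isL_one _ T) (isMin_compl M.toCoxeterSystem (one_mem _)) hx
    rw [mul_one, mul_one] at h1
    have e : {k | k ∈ T ∧ ∃ l ∈ Tᶜ, M.toCoxeterSystem.simple k * 1 = 1 * M.toCoxeterSystem.simple l} = (∅ : Set B) := by
      rw [Set.eq_empty_iff_forall_notMem]
      rintro k ⟨hk, l, hl, e⟩
      rw [mul_one, one_mul] at e
      exact hl (simple_inj M.toCoxeterSystem e ▸ hk)
    rw [e] at h1
    unfold ap at h1
    rw [Set.image_empty, Subgroup.closure_empty, Subgroup.mem_bot] at h1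
    exact h1
  have e1 : cy M T 1 (y' * x') = y' := by
    rw [hc.mul, cy_base hy', one_mul, one hx' _ (toCox_mem hy'), mul_one]
  rcases cy_other h hM hx hy with h2 | h2
  · left
    obtain ⟨p, hp, hpx⟩ : ∃ p ∈ ap M (Tᶜ \ {c}), toCox M p = toCox M x := exists_lift h2
    have hcomm : Commute p y' := by
      refine (comm_ap (S₁ := T) (S₂ := Tᶜ \ {c}) (fun i hi j hj => h.two i hi j hj.1 fun e => hj.2 e.2) hy' hp).symm
    have hpT : p ∈ ap M Tᶜ := ap_mono Set.sdiff_subset hp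
    have e2 : (p⁻¹ * x) * y = y' * (p⁻¹ * x') := by
      rw [mul_assoc, he, ← mul_assoc, ← mul_assoc, hcomm.inv_left.eq]
    have e3 : cy M T 1 ((p⁻¹ * x) * y) = y := by
      rw [hc.mul, one (mul_mem (inv_mem hpT) hx) _ (one_mem _), one_mul, one_mul, map_mul, map_inv, hpx, inv_mul_cancel, cy_base hy]
    have e4 : cy M T 1 (y' * (p⁻¹ * x')) = y' := by
      rw [hc.mul, cy_base hy', one_mul, one (mul_mem (inv_mem hpT) hx') _ (toCox_mem hy'), mul_one]
    rw [← e3, e2, e4]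
  · right
    have e3 : cy M T 1 (x * y) = cy M T (toCox M x) y := by
      rw [hc.mul, one hx _ (one_mem _), one_mul, one_mul]
    have hy2 : y' ∈ ap M (T \ {b}) := by
      rw [← e1, ← he, e3]
      exact h2
    have hcomm : Commute y' x' :=
      comm_ap (S₁ := T \ {b}) (S₂ := Tᶜ) (fun i hi j hj => h.two i hi.1 j hj fun e => hi.2 e.1) hy2 hx'
    have e5 : y * y'⁻¹ = x⁻¹ * x' := by
      rw [eq_comm, inv_mul_eq_iff_eq_mul, ← mul_assoc, he, hcomm.eq, mul_inv_cancel_right]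
    have e6 : y * y'⁻¹ = 1 := by
      have h4 : y * y'⁻¹ ∈ ap M T := mul_mem hy (inv_mem hy')
      have h5 : y * y'⁻¹ ∈ ap M Tᶜ := by
        rw [e5]
        exact mul_mem (inv_mem hx) hx'
      have h3 : y * y'⁻¹ ∈ ap M (T ∩ Tᶜ) := by
        rw [← ap_inter]
        exact ⟨h4, h5⟩
      rw [Set.inter_compl_self] at h3
      unfold ap at h3
      rwa [Set.image_empty, Subgroup.closure_empty, Subgroup.mem_bot] at h3
    rw [mul_inv_eq_one.1 e6]
    exact hy2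

/-- the girth of the edge from (COM) -/
theorem gs_of_com (h : Brg M b c T) (hM : ∀ i j, M i j ≠ 0) (hC : Com M b c T) : GS M Set.univ b c := by
  intro x hx x' hx' y hy y' hy' he
  have s1 : (Set.univ \ {b} : Set B) = (T \ {b}) ∪ Tᶜ := by
    ext j
    simp only [Set.mem_sdiff, Set.mem_univ, true_and, Set.mem_singleton_iff, Set.mem_union, Set.mem_compl_iff]
    constructor
    · intro h1
      by_cases h2 : j ∈ T
      · exact Or.inl ⟨h2, h1⟩
      · exact Or.inr h2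
    · rintro (h1 | h1)
      · exact h1.2
      · rintro rfl
        exact h1 h.left
  have s2 : (Set.univ \ {c} : Set B) = T ∪ (Tᶜ \ {c}) := by
    ext j
    simp only [Set.mem_sdiff, Set.mem_univ, true_and, Set.mem_singleton_iff, Set.mem_union, Set.mem_compl_iff]
    constructor
    · intro h1
      by_cases h2 : j ∈ T
      · exact Or.inl h2
      · exact Or.inr ⟨h2, h1⟩
    · rintro (h1 | h1)
      · rintro rfl
        exact h.right h1
      · exact h1.2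
  have s3 : (T \ {b} : Set B) ⊆ Set.univ \ {b, c} := by
    rintro j ⟨h1, h2⟩
    refine ⟨trivial, fun h3 => ?_⟩
    rcases h3 with h3 | h3
    · exact h2 h3
    · rw [h3] at h1
      exact h.right h1
  have s4 : (Tᶜ \ {c} : Set B) ⊆ Set.univ \ {b, c} := by
    rintro j ⟨h1, h2⟩
    refine ⟨trivial, fun h3 => ?_⟩
    rcases h3 with h3 | h3
    · rw [h3] at h1
      exact h1 h.left
    · exact h2 h3
  have c1 : ∀ i ∈ T \ {b}, ∀ j ∈ Tᶜ, M i j = 2 := fun i hi j hj => h.two i hi.1 j hj fun e => hi.2 e.1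
  have c2 : ∀ i ∈ T, ∀ j ∈ Tᶜ \ {c}, M i j = 2 := fun i hi j hj => h.two i hi j hj.1 fun e => hj.2 e.2
  rw [s1] at hx hx'
  rw [s2] at hy hy'
  obtain ⟨p, hp, x₂, hx₂, rfl⟩ := dec_ap c1 hx
  obtain ⟨p', hp', x₂', hx₂', rfl⟩ := dec_ap c1 hx'
  obtain ⟨y₁, hy₁, q, hq, rfl⟩ := dec_ap c2 hy
  obtain ⟨y₁', hy₁', q', hq', rfl⟩ := dec_ap c2 hy'
  have hpT : ∀ {p : Art M}, p ∈ ap M (T \ {b}) → p ∈ ap M T := fun h1 => ap_mono Set.sdiff_subset h1
  have hqT : ∀ {q : Art M}, q ∈ ap M (Tᶜ \ {c}) → q ∈ ap M Tᶜ := fun h1 => ap_mono Set.sdiff_subset h1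
  have k1 : Commute p' x₂' := comm_ap c1 hp' hx₂'
  have k2 : Commute p q' := comm_ap c2 (hpT hp) hq'
  have e1 : (q' * x₂) * y₁ = (p' * y₁' * p)⁻¹ * (q * x₂')⁻¹ := by
    rw [← mul_inv_rev, eq_inv_iff_mul_eq_one]
    have e2 : q' * (p * x₂ * (y₁ * q) * (p' * x₂') * (y₁' * q')) * q'⁻¹ = 1 := by
      rw [he, mul_one, mul_inv_cancel]
    have e3 : q' * (p * x₂ * (y₁ * q) * (p' * x₂') * (y₁' * q')) * q'⁻¹ =
        p * ((q' * x₂) * y₁ * ((q * x₂') * (p' * y₁'))) := by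
      calc q' * (p * x₂ * (y₁ * q) * (p' * x₂') * (y₁' * q')) * q'⁻¹
          = (q' * p) * x₂ * (y₁ * q) * (p' * x₂') * y₁' := by group
        _ = (p * q') * x₂ * (y₁ * q) * (x₂' * p') * y₁' := by rw [k2.eq, k1.eq]
        _ = p * ((q' * x₂) * y₁ * ((q * x₂') * (p' * y₁'))) := by group
    rw [e3] at e2
    calc q' * x₂ * y₁ * (q * x₂' * (p' * y₁' * p)) = p⁻¹ * (p * ((q' * x₂) * y₁ * ((q * x₂') * (p' * y₁')))) * p := by group
      _ = 1 := by rw [e2, mul_one, inv_mul_cancel]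
  have m1 : q' * x₂ ∈ ap M Tᶜ := mul_mem (hqT hq') hx₂
  have m2 : (q * x₂')⁻¹ ∈ ap M Tᶜ := inv_mem (mul_mem (hqT hq) hx₂')
  have m3 : (p' * y₁' * p)⁻¹ ∈ ap M T := inv_mem (mul_mem (mul_mem (hpT hp') hy₁') (hpT hp))
  have fin1 : y₁ ∈ ap M (T \ {b}) → y₁ * q ∈ ap M (Set.univ \ {b, c}) := fun h1 =>
    mul_mem (ap_mono s3 h1) (ap_mono s4 hq)
  have fin2 : q' * x₂ ∈ ap M (Tᶜ \ {c}) → p * x₂ ∈ ap M (Set.univ \ {b, c}) := fun h1 =>
    mul_mem (ap_mono s3 hp) (ap_mono s4 ((Subgroup.mul_mem_cancel_left _ hq').1 h1))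
  rcases core h hM m1 hy₁ m3 m2 e1 with h2 | h2
  · have h3 : Tᶜᶜ = T := compl_compl T
    have e4 : y₁⁻¹ * (q' * x₂)⁻¹ = (q * x₂')⁻¹⁻¹ * y₁⁻¹ := by
      rw [← mul_inv_rev, e1, mul_inv_rev, ← h2]
    rcases core h.symm hM (by rw [h3]; exact inv_mem hy₁) (inv_mem m1) (inv_mem m2) (by rw [h3]; exact inv_mem hy₁) e4 with h5 | h5
    · have h6 : (q * x₂')⁻¹ = q' * x₂ := by
        rw [inv_inj] at h5
        exact h5.symm
      rw [h6, ← h2] at e1
      rcases hC _ m1 _ hy₁ e1 with h7 | h7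
      · exact Or.inl (fin2 h7)
      · exact Or.inr (fin1 h7)
    · exact Or.inl (fin2 (by rw [← inv_inv (q' * x₂)]; exact inv_mem h5))
  · exact Or.inr (fin1 h2)

end Pool.Agent.H54.LK
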