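import Pool.Agent.H54.LK.Red
import Pool.Agent.H54.CT.Fm

/-!
# [H54 LK FST] POLY for the simply laced forests all of whose proper subsets are of finite type, from (COM)
-/

set_option autoImplicit false

namespace Pool.Agent.H54.LK

open CoxeterSystem Pool.H8.CDW Pool.Agent.H52.PAG Pool.Agent.H75.INF Pool.Agent.H54.TF Pool.Agent.H54.AF Pool.Agent.H54.BS
  Pool.Agent.H54.CT Pool.Agent.H34.TG

variable {B : Type} {M : CoxeterMatrix B}

/-- the side of an edge of a forest -/
theorem exists_brg (hM : ∀ i j, M i j ≠ 0) (hfo : Forest M) {b c : B} (hbc : 3 ≤ M b c) : ∃ T : Set B, Brg M b c T := by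
  refine ⟨{y | Relation.ReflTransGen (fun x y => 3 ≤ M x y ∧ ¬ (x = b ∧ y = c) ∧ ¬ (x = c ∧ y = b)) b y}, ?_, ?_, hbc, ?_⟩
  · exact Relation.ReflTransGen.refl
  · exact hfo b c hbc
  · intro i hi j hj hij
    by_contra h2
    have hne : i ≠ j := by
      rintro rfl
      exact hj hi
    have h3 : 3 ≤ M i j := by
      have h0 := hM i j
      have h1 := M.off_diagonal i j hne
      omega
    refine hj (Relation.ReflTransGen.tail hi ⟨h3, hij, ?_⟩)
    rintro ⟨rfl, rfl⟩
    exact hj Relation.ReflTransGen.refl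

theorem sl_of_forest (h3 : ∀ i j, i ≠ j → M i j = 2 ∨ M i j = 3) (hfo : Forest M) : SL M := by
  refine ⟨h3, ?_⟩
  rintro i j k ⟨h1, h2, h4⟩
  have ne : ∀ {a b : B}, M a b = 3 → a ≠ b := by
    rintro a b h rfl
    rw [M.diagonal] at h
    omega
  have n1 := ne h1
  have n2 := ne h2
  have n4 := ne h4
  have s1 : Relation.ReflTransGen (fun x y => 3 ≤ M x y ∧ ¬ (x = i ∧ y = j) ∧ ¬ (x = j ∧ y = i)) i k :=
    Relation.ReflTransGen.single ⟨h4.ge, fun e => n2 e.2.symm, fun e => n1 e.1⟩
  refine hfo i j h1.ge (s1.tail ⟨?_, fun e => n4 e.1.symm, fun e => n1 e.2.symm⟩)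
  rw [M.symmetric, h2]

theorem fin_mono (hM : ∀ i j, M i j ≠ 0) {K L : Set B} (h : K ⊆ L) (hL : Finite (resM M L).Group) : Finite (resM M K).Group := by
  rw [finr_iff hM] at hL ⊢
  exact Finite.of_injective _ (Subgroup.inclusion_injective (par_mono M.toCoxeterSystem h))

/-- the girth of the edges -/
theorem gs_min (hL : ComLeaf) (hI : ComInner) [Finite B] (h3 : ∀ i j, i ≠ j → M i j = 2 ∨ M i j = 3) (hfo : Forest M)
    (hf : ∀ k, Finite (resM M ({k}ᶜ : Set B)).Group) {b c : B} (hbc : 3 ≤ M b c) : GS M Set.univ b c := by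
  have hM : ∀ i j, M i j ≠ 0 := by
    intro i j
    by_cases hij : i = j
    · rw [hij, M.diagonal]
      exact one_ne_zero
    · rcases h3 i j hij with h | h <;> rw [h] <;> norm_num
  have hs := sl_of_forest h3 hfo
  obtain ⟨T, hT⟩ := exists_brg hM hfo hbc
  by_cases h1 : Tᶜ = {c}
  · have e : T = {c}ᶜ := by rw [← h1, compl_compl]
    subst e
    exact gs_of_com hT hM (hL B M hs b c hT (hf c))
  by_cases h2 : T = {b}
  · have h4 := hT.symm
    rw [h2] at h4
    exact gs_symm (gs_of_com h4 hM (hL B M hs c b h4 (hf b)))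
  refine gs_of_com hT hM (hI B M hs b c T hT ?_ ?_)
  · obtain ⟨k, hk, hkc⟩ : ∃ k ∈ Tᶜ, k ≠ c := by
      by_contra hcon
      push Not at hcon
      exact h1 (Set.eq_singleton_iff_unique_mem.2 ⟨hT.right, hcon⟩)
    refine fin_mono hM ?_ (hf k)
    rintro j (hj | hj) e
    · exact hkc (e.symm.trans hj)
    · rw [Set.mem_singleton_iff] at e
      rw [e] at hj
      exact hk hj
  · obtain ⟨k, hk, hkb⟩ : ∃ k ∈ T, k ≠ b := by
      by_contra hcon
      push Not at hcon
      exact h2 (Set.eq_singleton_iff_unique_mem.2 ⟨hT.left, hcon⟩)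
    refine fin_mono hM ?_ (hf k)
    rintro j (hj | hj) e
    · exact hkb (e.symm.trans hj)
    · rw [Set.mem_singleton_iff] at e
      rw [e] at hj
      exact hj hk

/-- POLY for the simply laced forests all of whose proper subsets are of finite type -/
theorem polF_min (hL : ComLeaf) (hI : ComInner) [Finite B] (h3 : ∀ i j, i ≠ j → M i j = 2 ∨ M i j = 3) (hfo : Forest M)
    (hf : ∀ k, Finite (resM M ({k}ᶜ : Set B)).Group) : PolF M Set.univ := by
  have hv : ∀ i j, M i j = 1 ∨ M i j = 2 ∨ M i j = 3 := by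
    intro i j
    by_cases hij : i = j
    · rw [hij, M.diagonal]
      exact Or.inl rfl
    · exact Or.inr (h3 i j hij)
  refine polF_tree ?_ ?_ hfo (fun b c hbc => gs_min hL hI h3 hfo hf hbc) ?_
  · intro i j
    have := hv i j
    omega
  · intro i j
    have := hv i j
    omega
  · intro b c hbc
    have := hv b c
    omega

end Pool.Agent.H54.LK
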